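import Pool.Agent.Y330.E.L9

set_option autoImplicit false

open scoped Manifold ContDiff Topology Bundle
open Set Filter Bundle

namespace Pool.Agent.Results.MP_610fe3_an.CartanTransitive

open Pool.Agent.H721R2 Pool.Agent.H789R2.AN Pool.Agent.Y330.F Pool.Agent.Y330.E

/-- **Transitivity of the Anosov elements of totally Cartan actions.**

Let `M` be a closed connected smooth manifold, let an abelian group `G` act on `M` by `C²`
diffeomorphisms `α a`, let `F j` be finitely many fields of tangent subspaces, invariant under the
action, and `χ j : G → ℝ` homomorphisms.  An element `a` is *regular* if `χ j a ≠ 0` for all `j`;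
`negField χ F a` (`posField χ F a`) is the sum of the `F j` with `χ j a < 0` (`χ j a > 0`).

(1) *Totally Cartan actions.*  If all fields `F j` are one-dimensional, no two of the characters
are positively proportional, and every regular `α a` is Anosov with stable bundle
`negField χ F a` and unstable bundle `posField χ F a`, then every regular `α a` is topologically
transitive.  The group is any abelian group (`ℤ` included: then `M` is a surface, the case of
Franks and Newhouse), rank-one factors are allowed, and no transitivity, no invariant volume and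
no closeness to an algebraic action is assumed.

(2) *Totally Anosov actions.*  It is enough that, whenever `χ i = -c χ j` with `c > 0`, the field
`F i` is one-dimensional and no other `χ k` is a positive multiple of `χ i` (that is, the coarse
Lyapunov fields which have an opposite one are one-dimensional; there is no condition on the
others): if every regular `α a` is Anosov with the bundles above, then every regular `α a` is
topologically transitive.

(3) More generally, under the conditions of (2) on the characters, it is enough that each Weyl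
chamber contains an element `b` such that `α b` is Anosov with these bundles, and that at each
fixed point `p` of `α b`, for `b` regular with `χ i b < 0` and `i` as in (2), the derivative of
`α b` shrinks the vectors of `F i p` (`SignCondition`): then every `α a`, with `a` regular, that
is Anosov with these bundles is topologically transitive. -/
theorem result (E : Type*) [NormedAddCommGroup E] [NormedSpace ℝ E] [FiniteDimensional ℝ E]
    (M : Type*) [TopologicalSpace M] [T2Space M] [CompactSpace M] [ConnectedSpace M]
    [ChartedSpace E M] [IsManifold 𝓘(ℝ, E) ∞ M] (G J : Type*) [AddCommGroup G] [Finite J]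
    (α : G → Diffeomorph 𝓘(ℝ, E) 𝓘(ℝ, E) M M 1) (χ : J → G →+ ℝ)
    (F : J → ∀ x : M, Submodule ℝ (TangentSpace 𝓘(ℝ, E) x))
    (hα2 : ∀ a, ContMDiff 𝓘(ℝ, E) 𝓘(ℝ, E) 2 (α a)) (hα : ∀ a b x, α (a + b) x = α a (α b x))
    (hF : ∀ a j, InvariantField (α a) (F j)) :
    ((∀ j x, Module.finrank ℝ (F j x) = 1) →
      (∀ i j, ∀ c : ℝ, 0 < c → (∀ a, χ i a = c * χ j a) → i = j) →
      (∀ a, (∀ j, χ j a ≠ 0) → IsAnosov (α a) (negField χ F a) (posField χ F a)) →
      ∀ a, (∀ j, χ j a ≠ 0) → TopTransitive (α a)) ∧
    ((∀ i j, ∀ c : ℝ, 0 < c → (∀ a, χ i a = -c * χ j a) →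
        (∀ x, Module.finrank ℝ (F i x) = 1) ∧
        ∀ k, ∀ c' : ℝ, 0 < c' → (∀ a, χ k a = c' * χ i a) → k = i) →
      (∀ a, (∀ j, χ j a ≠ 0) → IsAnosov (α a) (negField χ F a) (posField χ F a)) →
      ∀ a, (∀ j, χ j a ≠ 0) → TopTransitive (α a)) ∧
    ((∀ i j, ∀ c : ℝ, 0 < c → (∀ a, χ i a = -c * χ j a) →
        (∀ x, Module.finrank ℝ (F i x) = 1) ∧ SignCondition α χ F i ∧
        ∀ k, ∀ c' : ℝ, 0 < c' → (∀ a, χ k a = c' * χ i a) → k = i) →
      (∀ a, (∀ j, χ j a ≠ 0) → ∃ b, (∀ j, 0 < χ j a * χ j b) ∧
        IsAnosov (α b) (negField χ F b) (posField χ F b)) →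
      ∀ a, (∀ j, χ j a ≠ 0) → IsAnosov (α a) (negField χ F a) (posField χ F a) →
      TopTransitive (α a)) :=
  ⟨fun h1 hpos hA a ha => paired_totally0 α hα2 hα χ F hF
        (fun i _ _ _ _ => ⟨h1 i, fun k c' hc' h => hpos k i c' hc' h⟩) hA a ha,
    fun hpair hA a ha => paired_totally0 α hα2 hα χ F hF hpair hA a ha,
    fun hpair hW a ha hA => paired_main0 α hα2 hα χ F hF hpair hW a ha hA⟩

end Pool.Agent.Results.MP_610fe3_an.CartanTransitive
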