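import Pool.Agent.Y331.EP.Trans

set_option autoImplicit false

open scoped Manifold ContDiff Topology
open Set Filter

namespace Pool.Agent.Results.MP_610fe3_an.HomoclinicSeparation

open Pool.Agent.H721R2 Pool.Agent.H789R2.AN Pool.Agent.TH289 Pool.Agent.TH289.K
open Pool.Agent.Y331.EP

/-- **Transitivity is decided by the homoclinic points that a semiconjugacy identifies.**
Let `f`, `g` be `C¹` Anosov diffeomorphisms of closed connected manifolds `M`, `M'` and let
`h : M → M'` be any continuous map with `h ∘ f = g ∘ h`.  Suppose that `g` has global product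
structure (`GPS`: each stable path and each unstable path with the same initial point span a
rectangle; for instance `g` is a hyperbolic automorphism of an infranilmanifold).  Nothing is assumed
about `f` (in particular not that it is transitive), nor about the dimensions.  Then the following
are equivalent.
* `f` is topologically transitive and `h` loses no entropy: `h_top(f) ≤ h_top(g, h(M))`.
* `h` takes different values at two different points that are both forward and backward asymptotic
  under `f`.
* There is a bound `B` such that, for every `x`, at most `B` points that are both forward and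
  backward asymptotic to `x` have the same image as `x`.
* Every fibre of `h` is countable.
* `f` is topologically transitive, `f` has global product structure, and there is a bound on the
  number of points of the fibres of `h`. -/
theorem result (E : Type*) [NormedAddCommGroup E] [NormedSpace ℝ E] [FiniteDimensional ℝ E]
    (M : Type*) [MetricSpace M] [CompactSpace M] [ConnectedSpace M]
    [ChartedSpace E M] [IsManifold 𝓘(ℝ, E) ∞ M] (f : Diffeomorph 𝓘(ℝ, E) 𝓘(ℝ, E) M M 1)
    (Es Eu : ∀ x : M, Submodule ℝ (TangentSpace 𝓘(ℝ, E) x)) (hf : IsAnosov f Es Eu)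
    (E' : Type*) [NormedAddCommGroup E'] [NormedSpace ℝ E'] [FiniteDimensional ℝ E']
    (M' : Type*) [MetricSpace M'] [CompactSpace M'] [ConnectedSpace M']
    [ChartedSpace E' M'] [IsManifold 𝓘(ℝ, E') ∞ M'] (g : Diffeomorph 𝓘(ℝ, E') 𝓘(ℝ, E') M' M' 1)
    (Es' Eu' : ∀ x : M', Submodule ℝ (TangentSpace 𝓘(ℝ, E') x)) (hg : IsAnosov g Es' Eu')
    (hG : GPS g.toHomeomorph) (h : C(M, M')) (hfg : ∀ x, h (f x) = g (h x)) :
    List.TFAE [TopTransitive f ∧
        Dynamics.coverEntropy f univ ≤ Dynamics.coverEntropy g (range h),
      ∀ x y, h x = h y → Asym f x y → Asym f.symm x y → x = y,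
      ∃ B : ℕ, ∀ x, {y | h y = h x ∧ Asym f x y ∧ Asym f.symm x y}.encard ≤ B,
      ∀ y, (h ⁻¹' {y}).Countable,
      TopTransitive f ∧ GPS f.toHomeomorph ∧ ∃ N : ℕ, ∀ y, (h ⁻¹' {y}).encard ≤ N] :=
  man_trans f Es Eu hf g Es' Eu' hg hG h h.continuous hfg

end Pool.Agent.Results.MP_610fe3_an.HomoclinicSeparation
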