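import Pool.Agent.Y321.PJ.Main

/-!
# MP_610fe3_an: the Jacobians at the periodic points of a nontransitive Anosov diffeomorphism
-/

set_option autoImplicit false

open scoped Manifold ContDiff Topology
open Set Filter

namespace Pool.Agent.Results.MP_610fe3_an.PeriodicJacobian

open Pool.Agent.H721R2 Pool.Agent.H789R2.AN

/-- `|det D(fⁿ)(p)|`, for a point `p` with `fⁿ(p) = p`: the absolute value of the determinant of
the derivative of `fⁿ` at `p`, which is an endomorphism of the tangent space at `p`. -/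
noncomputable def perJac (E : Type*) [NormedAddCommGroup E] [NormedSpace ℝ E]
    {M : Type*} [TopologicalSpace M] [ChartedSpace E M] (f : M → M) (n : ℕ) (p : M) : ℝ :=
  |(mfderiv 𝓘(ℝ, E) 𝓘(ℝ, E) (f^[n]) p : E →L[ℝ] E).det|

/-- **Periodic Jacobians of nontransitive Anosov diffeomorphisms.**
Let `f` be a `C²` Anosov diffeomorphism of a closed connected manifold `M`.

* If `f` is not topologically transitive, then there are `n ≥ 1` and finite sets `P`, `Q` of fixed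
  points of `fⁿ`, with `|det D(fⁿ)| < 1` on `P` and `|det D(fⁿ)| > 1` on `Q`, such that the points
  heteroclinic from `Q` to `P` are dense in `M`.
* In particular, if `|det D(fᵏ)(p)| ≥ 1` whenever `k ≥ 1` and `fᵏ(p) = p`, or
  `|det D(fᵏ)(p)| ≤ 1` whenever `k ≥ 1` and `fᵏ(p) = p`, then `f` is topologically transitive. -/
theorem result (E : Type*) [NormedAddCommGroup E] [NormedSpace ℝ E] [FiniteDimensional ℝ E]
    (M : Type*) [TopologicalSpace M] [T2Space M] [CompactSpace M] [ConnectedSpace M]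
    [ChartedSpace E M] [IsManifold 𝓘(ℝ, E) ∞ M] (f : Diffeomorph 𝓘(ℝ, E) 𝓘(ℝ, E) M M 1)
    (hf2 : ContMDiff 𝓘(ℝ, E) 𝓘(ℝ, E) 2 f) (hf2' : ContMDiff 𝓘(ℝ, E) 𝓘(ℝ, E) 2 f.symm)
    (Es Eu : ∀ x : M, Submodule ℝ (TangentSpace 𝓘(ℝ, E) x)) (hA : IsAnosov f Es Eu) :
    (¬ TopTransitive f → ∃ (n : ℕ) (P Q : Set M), 1 ≤ n ∧ P.Finite ∧ Q.Finite ∧
      (∀ p ∈ P, f^[n] p = p ∧ perJac E f n p < 1) ∧
      (∀ q ∈ Q, f^[n] q = q ∧ 1 < perJac E f n q) ∧
      Dense {x : M | (∃ p ∈ P, Tendsto (fun k : ℕ => f^[n * k] x) atTop (𝓝 p)) ∧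
        ∃ q ∈ Q, Tendsto (fun k : ℕ => f.symm^[n * k] x) atTop (𝓝 q)}) ∧
    ((∀ (k : ℕ) (p : M), 1 ≤ k → f^[k] p = p → 1 ≤ perJac E f k p) ∨
      (∀ (k : ℕ) (p : M), 1 ≤ k → f^[k] p = p → perJac E f k p ≤ 1) → TopTransitive f) := by
  have h1 := Pool.Agent.Y321.PJ.main f hf2 hf2' Es Eu hA
  refine ⟨h1, fun h => ?_⟩
  by_contra hnt
  obtain ⟨n, P, Q, hn, -, -, hP, hQ, hd⟩ := h1 hnt
  obtain ⟨x, ⟨p, hp, -⟩, ⟨q, hq, -⟩⟩ := hd.nonempty
  rcases h with h | h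
  · exact absurd (h n p hn (hP p hp).1) (not_le.mpr (hP p hp).2)
  · exact absurd (h n q hn (hQ q hq).1) (not_le.mpr (hQ q hq).2)

end Pool.Agent.Results.MP_610fe3_an.PeriodicJacobian
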