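import Pool.Agent.Y330.N.B6

set_option autoImplicit false

open scoped Manifold ContDiff Topology
open Set Filter

namespace Pool.Agent.Results.MP_610fe3_an.QuasiMoebiusLeaf

open Pool.Agent.H721R2 Pool.Agent.H789R2.AN Pool.Agent.Y330.N Pool.Agent.TH289.K

/-- **Anosov diffeomorphisms with a stable leaf whose holonomies are uniformly quasi-Möbius are
transitive.**
Let `f` be a `C¹` Anosov diffeomorphism of a closed connected manifold `M`.  There is a neighbourhood
`𝒰₀` of the diagonal of `M × M` such that the following holds for every neighbourhood `𝒰` of the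
diagonal contained in `𝒰₀`, for `g = f` or `g = f⁻¹` and for every point `p` of `M`.

The stable holonomies of `g` take the points `x 0`, `y 0`, `z 0`, `w 0` of an unstable leaf of `g` to
`x 1`, `y 1`, `z 1`, `w 1`, where `x`, `y`, `z`, `w` are paths in stable leaves (`StablePath`) such
that `x s`, `y s`, `z s`, `w s` lie in the same unstable leaf for every `s` (`UnstablyRelated`).  The
level of two points of an unstable leaf is at most `i` if `g⁻ⁿ x` and `g⁻ⁿ y` are `𝒰`-close for all
integers `n ≥ i` (`ZLevel`; it is a dynamical version of the logarithm of the distance in the unstable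
leaf), and cross ratios are defined with the levels (`CrossRatioLE`).  Suppose that the holonomies
along the stable leaf of the ONE point `p` are uniformly (weakly) quasi-Möbius
(`QuasiMoebiusAlong g 𝒰 p`): for every `i` there is `k` such that, if `x` is a path in the stable leaf
of `p`, of whatever length, and the cross ratio of `x 0`, `y 0`, `z 0`, `w 0` is at most `i`, then
that of `x 1`, `y 1`, `z 1`, `w 1` is at most `k`.

Then `f` is topologically transitive and has global product structure (`GPS`), and all stable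
holonomies of `g` are uniformly bounded (`BoundedHolonomy g 𝒰`): for some `k` they increase the levels
by at most `k`.  (Conversely, if they are uniformly bounded then `QuasiMoebiusAlong g 𝒰 p` holds for
every point `p`.) -/
theorem result (E : Type*) [NormedAddCommGroup E] [NormedSpace ℝ E] [FiniteDimensional ℝ E]
    (M : Type*) [TopologicalSpace M] [T2Space M] [CompactSpace M] [ConnectedSpace M]
    [ChartedSpace E M] [IsManifold 𝓘(ℝ, E) ∞ M] (f : Diffeomorph 𝓘(ℝ, E) 𝓘(ℝ, E) M M 1)
    (Es Eu : ∀ x : M, Submodule ℝ (TangentSpace 𝓘(ℝ, E) x)) (hA : IsAnosov f Es Eu) :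
    ∃ 𝒰₀ ∈ 𝓝ˢ (diagonal M), ∀ 𝒰 ∈ 𝓝ˢ (diagonal M), 𝒰 ⊆ 𝒰₀ →
      ∀ g : M ≃ₜ M, (g = f.toHomeomorph ∨ g = f.toHomeomorph.symm) → ∀ p : M,
      (QuasiMoebiusAlong g 𝒰 p → TopTransitive f ∧ GPS f.toHomeomorph ∧ BoundedHolonomy g 𝒰) ∧
      (BoundedHolonomy g 𝒰 → QuasiMoebiusAlong g 𝒰 p) := by
  obtain ⟨𝒰₀, h1, h2⟩ := man_final f Es Eu hA
  refine ⟨𝒰₀, h1, fun 𝒰 h𝒰 hsub g hg p => ?_⟩
  obtain ⟨-, a2, a3⟩ := h2 𝒰 h𝒰 hsub g hg
  exact ⟨fun h => ⟨(a3 ((a2 p).1 h)).1, (a3 ((a2 p).1 h)).2.1, (a2 p).1 h⟩, (a2 p).2⟩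

end Pool.Agent.Results.MP_610fe3_an.QuasiMoebiusLeaf
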